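import Pool.Agent.W617.LG.StmI

/-!
# LG-CC1: smoothness and Codazzi equation of `CC`
-/

set_option autoImplicit false

open Set Filter Topology
open scoped ContDiff InnerProductSpace

namespace Pool.Agent.W577.LG

open Pool.Agent.W617.LG

variable {q : ℕ} {G : E q → E q →L[ℝ] E q} {M : TF q} {N : ℝ → E q → (E q →L[ℝ] E q)}
  {A : E q →L[ℝ] E q} {Y : E q → E q}

/-- the operator `P = A N¹(Y x)` -/
noncomputable def Pf (N : ℝ → E q → (E q →L[ℝ] E q)) (A : E q →L[ℝ] E q) (Y : E q → E q)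
    (x : E q) : E q →L[ℝ] E q := A * N 1 (Y x)

/-- its inverse -/
noncomputable def Rf (N : ℝ → E q → (E q →L[ℝ] E q)) (A : E q →L[ℝ] E q) (Y : E q → E q)
    (x : E q) : E q →L[ℝ] E q := Ring.inverse (A * N 1 (Y x))

theorem Pf_unit (h : TD q G M N A Y) {x : E q} (hx : x ≠ 0) : IsUnit (Pf N A Y x) :=
  h.unitA.mul (h.nf.unit 1 (Y x) (h.Y0 x hx))

theorem CC_apply (x v w : E q) : CC M N A Y x v w =
    -(Pf N A Y x (M (Y x) (Rf N A Y x v) (Rf N A Y x w))) := by
  simp [CC, Pf, Rf]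

theorem RP (h : TD q G M N A Y) {x : E q} (hx : x ≠ 0) (v : E q) :
    Rf N A Y x (Pf N A Y x v) = v := by
  have h1 : Rf N A Y x * Pf N A Y x = 1 := Ring.inverse_mul_cancel _ (Pf_unit h hx)
  have h2 := congrArg (fun T : E q →L[ℝ] E q => T v) h1
  simpa using h2

theorem PR (h : TD q G M N A Y) {x : E q} (hx : x ≠ 0) (v : E q) :
    Pf N A Y x (Rf N A Y x v) = v := by
  have h1 : Pf N A Y x * Rf N A Y x = 1 := Ring.mul_inverse_cancel _ (Pf_unit h hx)
  have h2 := congrArg (fun T : E q →L[ℝ] E q => T v) h1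
  simpa using h2

theorem Pf_smooth (h : TD q G M N A Y) {x : E q} (hx : x ≠ 0) : ContDiffAt ℝ ∞ (Pf N A Y) x := by
  have h1 : ContDiffAt ℝ ∞ (fun x => N 1 (Y x)) x :=
    (h.smN 1 (Y x) (h.Y0 x hx)).comp x (h.Ysm x hx)
  have h2 : ContDiffAt ℝ ∞ (fun x => (ContinuousLinearMap.compL ℝ (E q) (E q) (E q) A)
      (N 1 (Y x))) x := (ContinuousLinearMap.contDiff _).contDiffAt.comp x h1
  exact h2

theorem Rf_smooth (h : TD q G M N A Y) {x : E q} (hx : x ≠ 0) : ContDiffAt ℝ ∞ (Rf N A Y) x := by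
  obtain ⟨u, hu⟩ := Pf_unit h hx
  have h1 : ContDiffAt ℝ ∞ (Ring.inverse : (E q →L[ℝ] E q) → (E q →L[ℝ] E q)) (Pf N A Y x) := by
    rw [← hu]
    exact contDiffAt_ringInverse ℝ u
  exact h1.comp x (Pf_smooth h hx)

theorem CC_smooth (h : TD q G M N A Y) {x : E q} (hx : x ≠ 0) :
    ContDiffAt ℝ ∞ (CC M N A Y) x := by
  have hP := Pf_smooth h hx
  have hR := Rf_smooth h hx
  have hM : ContDiffAt ℝ ∞ (fun x => M (Y x)) x :=
    (h.hd.Msm (Y x) (h.Y0 x hx)).comp x (h.Ysm x hx)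
  have h1 : ContDiffAt ℝ ∞ (fun x => ContinuousLinearMap.compL ℝ (E q) (E q) (E q)
      (Pf N A Y x)) x := (ContinuousLinearMap.contDiff _).contDiffAt.comp x hP
  have h2 : ContDiffAt ℝ ∞ (fun x => (ContinuousLinearMap.compL ℝ (E q) (E q) (E q)).flip
      (Rf N A Y x)) x := (ContinuousLinearMap.contDiff _).contDiffAt.comp x hR
  exact (((h1.clm_comp h2).clm_comp hM).clm_comp hR).neg

theorem Pf_der (h : TD q G M N A Y) {x : E q} (hx : x ≠ 0) :
    ∃ P' : E q →L[ℝ] (E q →L[ℝ] E q), HasFDerivAt (Pf N A Y) P' x ∧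
      ∀ u w, P' u w = Pf N A Y x (M (Y x) (Rf N A Y x u) w) := by
  have h1 := (h.nf.der 1 (Y x) (h.Y0 x hx)).comp x (h.Yder x hx)
  have h2 := (ContinuousLinearMap.hasFDerivAt
    (ContinuousLinearMap.compL ℝ (E q) (E q) (E q) A) (x := N 1 (Y x))).comp x h1
  refine ⟨_, h2, ?_⟩
  intro u w
  simp [Pf, Rf]

theorem Rf_der (h : TD q G M N A Y) {x : E q} (hx : x ≠ 0) :
    ∃ R' : E q →L[ℝ] (E q →L[ℝ] E q), HasFDerivAt (Rf N A Y) R' x ∧
      ∀ u w, R' u w = -(M (Y x) (Rf N A Y x u) (Rf N A Y x w)) := by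
  obtain ⟨P', hP', hP'2⟩ := Pf_der h hx
  have hR : HasFDerivAt (Rf N A Y) (fderiv ℝ (Rf N A Y) x) x :=
    ((Rf_smooth h hx).differentiableAt (by simp)).hasFDerivAt
  refine ⟨_, hR, ?_⟩
  intro v w
  have h1 : HasFDerivAt (fun x' => Pf N A Y x' (Rf N A Y x w)) (P'.flip (Rf N A Y x w)) x := by
    have := hP'.clm_apply (hasFDerivAt_const (Rf N A Y x w) x)
    simpa using this
  have h2 := hR.clm_apply h1
  have h3 : (fun x' => Rf N A Y x' (Pf N A Y x' (Rf N A Y x w))) =ᶠ[𝓝 x]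
      fun _ => Rf N A Y x w := by
    filter_upwards [isOpen_compl_singleton.mem_nhds hx] with x' hx'
    exact RP h hx' _
  have h4 := (h2.congr_of_eventuallyEq h3.symm).unique (hasFDerivAt_const (Rf N A Y x w) x)
  have h5 := congrArg (fun T : E q →L[ℝ] E q => T v) h4
  simp only [add_apply, ContinuousLinearMap.comp_apply, ContinuousLinearMap.flip_apply, hP'2,
    RP h hx, PR h hx, zero_apply] at h5
  exact eq_neg_of_add_eq_zero_right h5

theorem CC_der (h : TD q G M N A Y) {x : E q} (hx : x ≠ 0) (u v w : E q) :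
    fderiv ℝ (CC M N A Y) x u v w = -(Pf N A Y x
      (fderiv ℝ M (Y x) (Rf N A Y x u) (Rf N A Y x v) (Rf N A Y x w)
        - M (Y x) (M (Y x) (Rf N A Y x u) (Rf N A Y x v)) (Rf N A Y x w))) := by
  obtain ⟨P', hP', hP'2⟩ := Pf_der h hx
  obtain ⟨R', hR', hR'2⟩ := Rf_der h hx
  have hy := h.Y0 x hx
  have hM : HasFDerivAt (fun x => M (Y x)) ((fderiv ℝ M (Y x)).comp (Rf N A Y x)) x :=
    (((h.hd.Msm (Y x) hy).differentiableAt (by simp)).hasFDerivAt).comp x (h.Yder x hx)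
  have ha : HasFDerivAt (fun x => Rf N A Y x v) (R'.flip v) x := by
    have := hR'.clm_apply (hasFDerivAt_const v x)
    simpa using this
  have hb : HasFDerivAt (fun x => Rf N A Y x w) (R'.flip w) x := by
    have := hR'.clm_apply (hasFDerivAt_const w x)
    simpa using this
  have h1 := (hP'.clm_apply ((hM.clm_apply ha).clm_apply hb)).neg
  have h2 : HasFDerivAt (fun x => CC M N A Y x v w)
      (((fderiv ℝ (CC M N A Y) x).flip v).flip w) x := by
    have h3 : HasFDerivAt (CC M N A Y) (fderiv ℝ (CC M N A Y) x) x :=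
      ((CC_smooth h hx).differentiableAt (by simp)).hasFDerivAt
    have h4 := h3.clm_apply (hasFDerivAt_const v x)
    simp only [ContinuousLinearMap.comp_zero, zero_add] at h4
    have h5 := h4.clm_apply (hasFDerivAt_const w x)
    simp only [ContinuousLinearMap.comp_zero, zero_add] at h5
    exact h5
  have h6 : (fun x => CC M N A Y x v w) =
      fun x => -(Pf N A Y x (M (Y x) (Rf N A Y x v) (Rf N A Y x w))) := by
    funext x; exact CC_apply x v w
  rw [h6] at h2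
  have h7 := congrArg (fun T : E q →L[ℝ] E q => T u) (h2.unique h1)
  simp only [ContinuousLinearMap.flip_apply, neg_apply,
    add_apply, ContinuousLinearMap.comp_apply, hP'2, hR'2] at h7
  rw [h7]
  have hc := h.hd.Mcomm (Y x) hy (Rf N A Y x u) (Rf N A Y x v) (Rf N A Y x w)
  simp only [map_add, map_neg, map_sub, neg_apply] at *
  rw [hc]
  abel

theorem s_CC1 : S_CC1 := by
  intro q G M N A Y h
  refine ⟨fun x hx => CC_smooth h hx, ?_⟩
  intro x hx u v
  ext1 w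
  rw [CC_der h hx, CC_der h hx, h.hd.Mcod (Y x) (h.Y0 x hx) (Rf N A Y x u) (Rf N A Y x v),
    h.hd.M12 (Y x) (h.Y0 x hx) (Rf N A Y x u) (Rf N A Y x v)]

end Pool.Agent.W577.LG
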