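import Mathlib
import Pool.Agent.W550.LG.StmV

/-!
# LG-T2: for a nearly monotone function the second iterate is small compared with the first
-/

set_option autoImplicit false

namespace Pool.Agent.W577.LG

open Set MeasureTheory intervalIntegral
open Pool.Agent.W550.LG

/-- The function `J(s) = ∫_{al}^s exp (- L r) dr`. -/
noncomputable def J (L : ℝ → ℝ) (al : ℝ) (s : ℝ) : ℝ := ∫ r in al..s, Real.exp (- L r)

theorem J_cont {L : ℝ → ℝ} (hL : Continuous L) (al : ℝ) : Continuous (J L al) := by
  unfold J
  exact intervalIntegral.continuous_primitive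
    (fun a b => (Real.continuous_exp.comp hL.neg).intervalIntegrable a b) al

theorem T_eq (L : ℝ → ℝ) (al : ℝ) (f : ℝ → ℝ) (s : ℝ) :
    T L al f s = ∫ σ in al..s, Real.exp (L σ) * ∫ r in al..σ, Real.exp (- L r) * f r := by
  unfold T
  congr 1
  funext σ
  rw [← intervalIntegral.integral_const_mul]
  congr 1
  funext r
  rw [sub_eq_add_neg, Real.exp_add]
  ring

theorem T1_eq (L : ℝ → ℝ) (al : ℝ) (s : ℝ) :
    T L al 1 s = ∫ σ in al..s, Real.exp (L σ) * J L al σ := by
  rw [T_eq]
  unfold J
  simp

theorem T_cont {L : ℝ → ℝ} (hL : Continuous L) (al : ℝ) {f : ℝ → ℝ} (hf : Continuous f) :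
    Continuous (T L al f) := by
  have h : T L al f = fun s =>
      ∫ σ in al..s, Real.exp (L σ) * ∫ r in al..σ, Real.exp (- L r) * f r := by
    funext s; exact T_eq L al f s
  rw [h]
  have h1 : Continuous fun σ => ∫ r in al..σ, Real.exp (- L r) * f r :=
    intervalIntegral.continuous_primitive
      (fun a b => ((Real.continuous_exp.comp hL.neg).mul hf).intervalIntegrable a b) al
  exact intervalIntegral.continuous_primitive
      (fun a b => ((Real.continuous_exp.comp hL).mul h1).intervalIntegrable a b) al

theorem J_nonneg {L : ℝ → ℝ} {al s : ℝ} (h : al ≤ s) : 0 ≤ J L al s :=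
  intervalIntegral.integral_nonneg h (fun _ _ => (Real.exp_pos _).le)

theorem J_mono {L : ℝ → ℝ} (hL : Continuous L) {al r s : ℝ} (h2 : r ≤ s) :
    J L al r ≤ J L al s := by
  have hi : ∀ a b, IntervalIntegrable (fun r => Real.exp (- L r)) volume a b :=
    fun a b => (Real.continuous_exp.comp hL.neg).intervalIntegrable a b
  have h : J L al s - J L al r = ∫ x in r..s, Real.exp (- L x) := by
    unfold J
    exact intervalIntegral.integral_interval_sub_left (hi _ _) (hi _ _)
  have h3 : 0 ≤ ∫ x in r..s, Real.exp (- L x) :=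
    intervalIntegral.integral_nonneg h2 (fun _ _ => (Real.exp_pos _).le)
  linarith only [h, h3]

theorem T1_le {L : ℝ → ℝ} (hL : Continuous L) {d al b : ℝ}
    (hnear : ∀ r s, al ≤ r → r ≤ s → s ≤ b → L r - d ≤ L s) {r : ℝ} (hr : r ∈ Icc al b) :
    T L al 1 r ≤ Real.exp d * Real.exp (L r) * ((r - al) * J L al r) := by
  rw [T1_eq]
  have h1 : (∫ σ in al..r, Real.exp (L σ) * J L al σ) ≤
      ∫ _σ in al..r, Real.exp d * Real.exp (L r) * J L al r := by
    apply intervalIntegral.integral_mono_on hr.1
    · exact ((Real.continuous_exp.comp hL).mul (J_cont hL al)).intervalIntegrable _ _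
    · exact intervalIntegrable_const
    · intro σ hσ
      have h2 : Real.exp (L σ) ≤ Real.exp d * Real.exp (L r) := by
        rw [← Real.exp_add]
        apply Real.exp_le_exp.2
        have := hnear σ r hσ.1 hσ.2 hr.2
        linarith only [this]
      exact mul_le_mul h2 (J_mono hL hσ.2) (J_nonneg hσ.1) (by positivity)
  refine h1.trans (le_of_eq ?_)
  rw [intervalIntegral.integral_const, smul_eq_mul]
  ring

theorem I_le {L : ℝ → ℝ} (hL : Continuous L) {d al b : ℝ}
    (hnear : ∀ r s, al ≤ r → r ≤ s → s ≤ b → L r - d ≤ L s) {s : ℝ} (hs : s ∈ Icc al b) :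
    (∫ r in al..s, Real.exp (- L r) * T L al 1 r) ≤
      1 / 2 * Real.exp d * (b - al) ^ 2 * J L al s := by
  have hc1 : Continuous (1 : ℝ → ℝ) := continuous_const
  have h1 : (∫ r in al..s, Real.exp (- L r) * T L al 1 r) ≤
      ∫ r in al..s, (Real.exp d * J L al s) * (r - al) := by
    apply intervalIntegral.integral_mono_on hs.1
    · exact ((Real.continuous_exp.comp hL.neg).mul (T_cont hL al hc1)).intervalIntegrable _ _
    · exact (continuous_const.mul (continuous_id.sub continuous_const)).intervalIntegrable _ _
    · intro r hr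
      have h2 := T1_le hL hnear (r := r) ⟨hr.1, hr.2.trans hs.2⟩
      have h3 : Real.exp (- L r) * T L al 1 r ≤
          Real.exp (- L r) * (Real.exp d * Real.exp (L r) * ((r - al) * J L al r)) :=
        mul_le_mul_of_nonneg_left h2 (Real.exp_pos _).le
      have h4 : Real.exp (- L r) * (Real.exp d * Real.exp (L r) * ((r - al) * J L al r)) =
          Real.exp d * ((r - al) * J L al r) := by
        have h5 : Real.exp (- L r) * Real.exp (L r) = 1 := by
          rw [← Real.exp_add]; simp
        calc _ = (Real.exp (- L r) * Real.exp (L r)) * (Real.exp d * ((r - al) * J L al r)) := by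
              ring
          _ = _ := by rw [h5, one_mul]
      have h6 : (r - al) * J L al r ≤ (r - al) * J L al s :=
        mul_le_mul_of_nonneg_left (J_mono hL hr.2) (by linarith only [hr.1])
      have h7 : Real.exp d * ((r - al) * J L al r) ≤ Real.exp d * ((r - al) * J L al s) :=
        mul_le_mul_of_nonneg_left h6 (Real.exp_pos _).le
      calc _ ≤ _ := h3
        _ = _ := h4
        _ ≤ _ := h7
        _ = _ := by ring
  have h8 : (∫ r in al..s, (Real.exp d * J L al s) * (r - al)) =
      Real.exp d * J L al s * ((s - al) ^ 2 / 2) := by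
    rw [intervalIntegral.integral_const_mul]
    congr 1
    rw [intervalIntegral.integral_sub (by simp) (by simp)]
    simp
    ring
  have h9 : (s - al) ^ 2 ≤ (b - al) ^ 2 := by
    have h10 : 0 ≤ s - al := by linarith only [hs.1]
    have h11 : s - al ≤ b - al := by linarith only [hs.2]
    exact pow_le_pow_left₀ h10 h11 2
  have h12 : 0 ≤ Real.exp d * J L al s := mul_nonneg (Real.exp_pos _).le (J_nonneg hs.1)
  calc _ ≤ _ := h1
    _ = _ := h8
    _ ≤ Real.exp d * J L al s * ((b - al) ^ 2 / 2) := by
        apply mul_le_mul_of_nonneg_left _ h12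
        linarith only [h9]
    _ = _ := by ring

theorem s_T2 : S_T2 := by
  intro L d al b hL hd hab hnear s hs
  have hc1 : Continuous (1 : ℝ → ℝ) := continuous_const
  constructor
  · rw [T_eq L al (T L al 1), T1_eq]
    rw [← intervalIntegral.integral_const_mul]
    have hI : Continuous fun σ => ∫ r in al..σ, Real.exp (- L r) * T L al 1 r :=
      intervalIntegral.continuous_primitive
        (fun a b => ((Real.continuous_exp.comp hL.neg).mul
          (T_cont hL al hc1)).intervalIntegrable a b) al
    apply intervalIntegral.integral_mono_on hs.1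
    · exact ((Real.continuous_exp.comp hL).mul hI).intervalIntegrable _ _
    · exact (continuous_const.mul ((Real.continuous_exp.comp hL).mul
        (J_cont hL al))).intervalIntegrable _ _
    · intro σ hσ
      have h1 := I_le hL hnear (s := σ) ⟨hσ.1, hσ.2.trans hs.2⟩
      calc Real.exp (L σ) * (∫ r in al..σ, Real.exp (- L r) * T L al 1 r)
          ≤ Real.exp (L σ) * (1 / 2 * Real.exp d * (b - al) ^ 2 * J L al σ) :=
            mul_le_mul_of_nonneg_left h1 (Real.exp_pos _).le
        _ = _ := by ring
  · have h1 := I_le hL hnear hs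
    have h2 : (∫ r in al..s, Real.exp (L s - L r) * T L al 1 r) =
        Real.exp (L s) * ∫ r in al..s, Real.exp (- L r) * T L al 1 r := by
      rw [← intervalIntegral.integral_const_mul]
      congr 1
      funext r
      rw [sub_eq_add_neg, Real.exp_add]
      ring
    have h3 : (∫ r in al..s, Real.exp (L s - L r)) = Real.exp (L s) * J L al s := by
      unfold J
      rw [← intervalIntegral.integral_const_mul]
      congr 1
      funext r
      rw [sub_eq_add_neg, Real.exp_add]
    rw [h2, h3]
    calc _ ≤ Real.exp (L s) * (1 / 2 * Real.exp d * (b - al) ^ 2 * J L al s) :=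
            mul_le_mul_of_nonneg_left h1 (Real.exp_pos _).le
      _ = _ := by ring

end Pool.Agent.W577.LG
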