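import Pool.Agent.W617.LG.StmIV
import Pool.Agent.GR.Flow

/-!
# LG-FLC: complete smooth flow by cutting off
-/

set_option autoImplicit false

open Set Filter Topology MeasureTheory
open scoped ContDiff Manifold

namespace Pool.Agent.W577.LG

open Pool.Agent.W617.LG

/-- flow of a smooth compactly supported vector field -/
theorem flow_cpt' {F : Type} [NormedAddCommGroup F] [NormedSpace ℝ F] [CompleteSpace F]
    (X : F → F) (hX : ContDiff ℝ ∞ X) (hc : HasCompactSupport X) :
    ∃ G : ℝ → F → F, ContDiff ℝ ∞ (fun q : ℝ × F => G q.1 q.2) ∧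
      (∀ p, G 0 p = p) ∧ (∀ s t p, G (s + t) p = G s (G t p)) ∧
      (∀ p t, HasDerivAt (fun t => G t p) (X (G t p)) t) := by
  obtain ⟨K, hK⟩ := hX.lipschitzWith_of_hasCompactSupport hc (by simp)
  obtain ⟨M, hM⟩ := hc.exists_bound_of_continuous hX.continuous
  have hM' : ∀ x, ‖X x‖ ≤ (Real.toNNReal M : NNReal) := fun x => (hM x).trans (Real.le_coe_toNNReal M)
  choose g h0 h1 using fun p => Pool.Agent.GR.Flow.exists_solution hK hM' p
  have hfl : Pool.Agent.GR.Flow.IsFlowOf X (fun t p => g p t) := ⟨h0, h1⟩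
  refine ⟨fun t p => g p t, ?_, h0, fun s t p => hfl.add hK s t p, h1⟩
  rw [contDiff_infty]
  intro m
  have key : ∀ m : ℕ, m ≠ 0 → ContDiff ℝ m (fun q : ℝ × F => g q.2 q.1) := by
    intro m hm
    exact Pool.Agent.GR.Flow.contDiff_flow (X := ⟨X, hX.continuous⟩) hm
      (hX.of_le (by exact_mod_cast le_top)) hK hfl
  exact (key (m + 1) (by omega)).of_le (by exact_mod_cast Nat.le_succ m)

theorem s_FLC : S_FLC := by
  intro q X U K hU hK hKU hX
  obtain ⟨L, hL, hKL, hLU⟩ := exists_compact_between hK hU hKU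
  obtain ⟨f, hf1, hf0, -⟩ := exists_contMDiffMap_one_nhds_of_subset_interior
    (n := (⊤ : ℕ∞)) (𝓘(ℝ, FB q)) hK.isClosed hKL
  have hfc : ContDiff ℝ ∞ (fun z => f z) := f.contMDiff.contDiff
  have hsupp : Function.support (fun z => f z • X z) ⊆ L := by
    intro z hz
    by_contra hzL
    apply hz
    simp only
    rw [hf0 z hzL, zero_smul]
  have hY : ContDiff ℝ ∞ (fun z => f z • X z) := by
    rw [contDiff_iff_contDiffAt]
    intro z
    by_cases hz : z ∈ U
    · exact hfc.contDiffAt.smul (hX.contDiffAt (hU.mem_nhds hz))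
    · have hzL : z ∉ L := fun h => hz (hLU h)
      have hev : (fun z => f z • X z) =ᶠ[𝓝 z] fun _ => 0 := by
        filter_upwards [hL.isClosed.isOpen_compl.mem_nhds hzL] with y hy
        rw [hf0 y hy, zero_smul]
      exact contDiffAt_const.congr_of_eventuallyEq hev
  have hcs : HasCompactSupport (fun z => f z • X z) :=
    HasCompactSupport.of_support_subset_isCompact hL hsupp
  obtain ⟨G, hG1, hG2, -, hG4⟩ := flow_cpt' _ hY hcs
  refine ⟨fun z => f z • X z, G, ?_, hG1, hG2, hG4⟩
  filter_upwards [hf1] with z hz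
  rw [hz, one_smul]

end Pool.Agent.W577.LG
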